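import Pool.Agent.Lib_helper92.LTW

/-!
# Clustered colouring of graphs of bounded layered treewidth without a `K_{s,t}` subgraph

For every `m` there is a finite graph of layered treewidth at most `3` without a `K_{2,21}` subgraph
every `3`-colouring of which has a monochromatic component with more than `m` vertices.
-/

set_option autoImplicit false

namespace Pool.Agent.Results.MP_9cfd90_co.LayeredTreewidthThree

/-- `(T, (B_x))` is a tree decomposition of the graph `G`: `T` is a tree, each edge of `G` lies in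
some bag, and for each vertex `v` of `G` the nodes `x` of `T` with `v ∈ B_x` induce a (non-empty,
connected) subtree of `T`. -/
def IsTreeDecomposition {V I : Type} (G : SimpleGraph V) (T : SimpleGraph I) (B : I → Set V) :
    Prop :=
  T.IsTree ∧ (∀ u v : V, G.Adj u v → ∃ x, u ∈ B x ∧ v ∈ B x) ∧
    ∀ v : V, (∃ x, v ∈ B x) ∧ (T.induce {x | v ∈ B x}).Connected

/-- `lay` (the vertex `v` lies in the layer `V_i`, `i = lay v`) is a layering of `G`: the layers of
the ends of an edge have distance at most `1`. -/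
def IsLayering {V : Type} (G : SimpleGraph V) (lay : V → ℕ) : Prop :=
  ∀ u v : V, G.Adj u v → lay u ≤ lay v + 1 ∧ lay v ≤ lay u + 1

/-- The graph `G` has layered treewidth at most `k`: it has a tree decomposition (with a finite tree)
and a layering such that each bag has at most `k` vertices in each layer. -/
def LayeredTreewidthAtMost {V : Type} (G : SimpleGraph V) (k : ℕ) : Prop :=
  ∃ (I : Type) (_ : Finite I) (T : SimpleGraph I) (B : I → Set V) (lay : V → ℕ),
    IsTreeDecomposition G T B ∧ IsLayering G lay ∧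
      ∀ (x : I) (i : ℕ), {v : V | v ∈ B x ∧ lay v = i}.encard ≤ k

/-- `G` has a `K_{s,t}` subgraph: `s` distinct vertices `a_i` and `t` distinct vertices `b_j`, each
`a_i` adjacent to each `b_j`. -/
def HasCompleteBipartite {V : Type} (G : SimpleGraph V) (s t : ℕ) : Prop :=
  ∃ (a : Fin s → V) (b : Fin t → V), Function.Injective a ∧ Function.Injective b ∧
    ∀ i j, G.Adj (a i) (b j)

/-- The graph formed by the edges of `G` whose two ends have the same colour. -/
def mono {V C : Type} (G : SimpleGraph V) (c : V → C) : SimpleGraph V where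
  Adj u v := G.Adj u v ∧ c u = c v
  symm := ⟨fun _ _ h => ⟨h.1.symm, h.2.symm⟩⟩
  loopless := ⟨fun _ h => h.1.ne rfl⟩

/-- The colouring `c` of `G` has clustering `m`: each monochromatic component (connected component of
the graph of the edges with ends of the same colour) has at most `m` vertices. -/
def HasClustering {V C : Type} (G : SimpleGraph V) (c : V → C) (m : ℕ) : Prop :=
  ∀ K : (mono G c).ConnectedComponent, K.supp.encard ≤ m

open Pool.Agent.Lib_helper92 in
theorem mono_eq {n M N : ℕ} (c : LTW.Vx n M N → Fin 3) : LTW.mono c = mono (LTW.G n M N) c := by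
  ext u v
  show (LTW.G n M N ⊓ SimpleGraph.fromRel (fun x y => c x = c y)).Adj u v ↔
    (LTW.G n M N).Adj u v ∧ c u = c v
  rw [SimpleGraph.inf_adj, SimpleGraph.fromRel_adj]
  constructor
  · rintro ⟨h, -, h1 | h1⟩
    · exact ⟨h, h1⟩
    · exact ⟨h, h1.symm⟩
  · rintro ⟨h, h1⟩
    exact ⟨h, h.ne, Or.inl h1⟩

open Pool.Agent.Lib_helper92 in
theorem main (m : ℕ) : ∃ (V : Type) (_ : Finite V) (G : SimpleGraph V),
    LayeredTreewidthAtMost G 3 ∧ ¬ HasCompleteBipartite G 2 21 ∧
      ∀ c : V → Fin 3, ¬ HasClustering G c m := by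
  have hn0 : 0 < m + 1 := Nat.succ_pos m
  refine ⟨LTW.Vx (m + 1) ((m + 1) * m + 1) (2 * (m + 1) + 1), inferInstance,
    LTW.G (m + 1) ((m + 1) * m + 1) (2 * (m + 1) + 1), ?_, ?_, ?_⟩
  · refine ⟨LTW.Vx (m + 1) ((m + 1) * m + 1) (2 * (m + 1) + 1), inferInstance,
      LTW.Tr hn0 ((m + 1) * m + 1) (2 * (m + 1) + 1), LTW.bag, fun v => LTW.lay v.1,
      ⟨LTW.Tr_isTree hn0, ?_, fun v => ⟨⟨v, LTW.self_mem_bag v.1⟩, LTW.bag_connected hn0 v⟩⟩,
      ?_, ?_⟩
    · intro u v huv
      rw [LTW.G, SimpleGraph.fromRel_adj] at huv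
      rcases huv.2 with h | h
      · exact ⟨u, LTW.self_mem_bag u.1, LTW.rel_mem_bag h⟩
      · exact ⟨v, LTW.rel_mem_bag h, LTW.self_mem_bag v.1⟩
    · intro u v huv
      rw [LTW.G, SimpleGraph.fromRel_adj] at huv
      rcases huv.2 with h | h
      · exact LTW.lay_rel h
      · exact (LTW.lay_rel h).symm
    · intro x i
      rw [← (Set.toFinite _).cast_ncard_eq]
      exact_mod_cast LTW.bag_layer x i
  · rintro ⟨a, b, ha, hb, hab⟩
    apply LTW.no_K2 (n := m + 1) (M := (m + 1) * m + 1) (N := 2 * (m + 1) + 1)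
    refine ⟨⟨Sum.elim a b, ?_⟩, ?_⟩
    · rintro (x | x) (y | y) h
      · simp at h
      · exact hab x y
      · exact (hab y x).symm
      · simp at h
    · rintro (x | x) (y | y) h
      · exact congrArg Sum.inl (ha h)
      · exact ((hab x y).ne h).elim
      · exact ((hab y x).ne h.symm).elim
      · exact congrArg Sum.inr (hb h)
  · intro c hc
    apply LTW.no_coloring (c := m) (Nat.lt_succ_self _) rfl c ?_ rfl
    intro v
    have h1 := hc ((mono _ c).connectedComponentMk v)
    rw [← (Set.toFinite _).cast_ncard_eq] at h1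
    have h2 : {u | (LTW.mono c).Reachable v u} =
        ((mono (LTW.G (m + 1) ((m + 1) * m + 1) (2 * (m + 1) + 1)) c).connectedComponentMk v).supp := by
      ext u
      rw [SimpleGraph.ConnectedComponent.mem_supp_iff, SimpleGraph.ConnectedComponent.eq, mono_eq]
      exact ⟨fun h => h.symm, fun h => h.symm⟩
    rw [h2]
    exact_mod_cast h1

/-- **Theorem.** For every `m` there is a finite graph `G` of layered treewidth at most `3`, without a
`K_{2,21}` subgraph, such that no `3`-colouring of `G` has clustering `m`. Hence for `s = 2` there is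
no function `f` such that, for all `k, t ≥ 1`, every finite graph of layered treewidth at most `k`
without a `K_{s,t}` subgraph has an `(s+1)`-colouring with clustering `f(k, t)`. -/
theorem result :
    (∀ m : ℕ, ∃ (V : Type) (_ : Finite V) (G : SimpleGraph V),
      LayeredTreewidthAtMost G 3 ∧ ¬ HasCompleteBipartite G 2 21 ∧
        ∀ c : V → Fin 3, ¬ HasClustering G c m) ∧
    ¬ ∀ s : ℕ, 2 ≤ s → ∃ f : ℕ → ℕ → ℕ, ∀ k t : ℕ, 1 ≤ k → 1 ≤ t →
      ∀ (V : Type) (_ : Finite V) (G : SimpleGraph V),
        LayeredTreewidthAtMost G k → ¬ HasCompleteBipartite G s t →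
          ∃ c : V → Fin (s + 1), HasClustering G c (f k t) := by
  refine ⟨main, ?_⟩
  intro h
  obtain ⟨f, hf⟩ := h 2 le_rfl
  obtain ⟨V, hV, G, h1, h2, h3⟩ := main (f 3 21)
  obtain ⟨c, hc⟩ := hf 3 21 (by omega) (by omega) V hV G h1 h2
  exact h3 c hc

end Pool.Agent.Results.MP_9cfd90_co.LayeredTreewidthThree
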